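import Pool.Agent.Y685.SY.Stm3

/-!
# Project SY, job SY3-CURRY (helper685): jointly continuous families as maps into `C(ι, V)`
-/

set_option maxSynthPendingDepth 3

open scoped ContDiff Topology
open MeasureTheory Set Metric

namespace Pool.Agent.Y232.SY

variable (E : Type) [NormedAddCommGroup E] [InnerProductSpace ℝ E] [FiniteDimensional ℝ E]
  [MeasurableSpace E] [BorelSpace E]

theorem t_CURRY : Pool.Agent.Y685.SY.S_CURRY E := by
  classical
  intro ι _ _ V _ _ _ a U hU ha
  have hcont : ∀ y ∈ U, Continuous (fun t => a t y) := by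
    intro y hy
    rw [← continuousOn_univ]
    exact ha.comp (f := fun t : ι => (t, y)) (by fun_prop) (fun t _ => ⟨mem_univ _, hy⟩)
  obtain ⟨A, hAdef⟩ : ∃ A : E → C(ι, V), A = fun y =>
    if h : y ∈ U then ⟨fun t => a t y, hcont y h⟩ else 0 := ⟨_, rfl⟩
  have hAe : ∀ y ∈ U, ∀ t, A y t = a t y := by
    intro y hy t
    rw [hAdef]
    simp [hy]
  have hAc : ContinuousOn A U := by
    rw [continuousOn_iff_continuous_domRestrict]
    apply ContinuousMap.continuous_of_continuous_uncurry
    have h1 : Continuous (fun q : U × ι => a q.2 q.1) := by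
      rw [← continuousOn_univ]
      exact ha.comp (f := fun q : U × ι => (q.2, (q.1 : E))) (by fun_prop)
        (fun q _ => ⟨mem_univ _, q.1.2⟩)
    refine h1.congr ?_
    rintro ⟨y, t⟩
    exact (hAe y y.2 t).symm
  refine ⟨A, hAc, hAe, ?_⟩
  intro K hKU hK ρ
  set F : E → C(ι, V) := K.indicator A with hF
  have hFi : Integrable F volume := by
    rw [hF, integrable_indicator_iff hK.measurableSet]
    exact (hAc.mono hKU).integrableOn_compact hK
  have hFl : LocallyIntegrable F volume := hFi.locallyIntegrable
  set L : C(ι, V) →L[ℝ] ℝ →L[ℝ] C(ι, V) := (ContinuousLinearMap.lsmul ℝ ℝ).flip with hL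
  set g : E → ℝ := ρ.normed volume with hg
  have hρ : ContDiff ℝ ∞ g := ρ.contDiff_normed
  have hρc : HasCompactSupport g := ρ.hasCompactSupport_normed
  have e : (fun x => ∫ y, g (x - y) • F y) = MeasureTheory.convolution F g L volume := rfl
  refine ⟨?_, ?_⟩
  · rw [e]
    exact hρc.contDiff_convolution_right L hFl hρ
  · intro x t
    have hI : Integrable (fun y => g (x - y) • F y) volume :=
      hρc.convolutionExists_right L hFl hρ.continuous x
    have h1 := ContinuousLinearMap.integral_comp_comm (ContinuousMap.evalCLM ℝ t) hI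
    have h2 : (∫ y, g (x - y) • F y) t = ∫ y, (g (x - y) • F y) t := h1.symm
    rw [h2]
    refine integral_congr_ae (Filter.Eventually.of_forall fun y => ?_)
    change g (x - y) • F y t = g (x - y) • K.indicator (a t) y
    congr 1
    by_cases hy : y ∈ K
    · rw [hF, indicator_of_mem hy, indicator_of_mem hy, hAe y (hKU hy)]
    · rw [hF, indicator_of_notMem hy, indicator_of_notMem hy]
      rfl

end Pool.Agent.Y232.SY
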