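import Pool.Agent.Y501.SY.StmR

/-!
# SYR-MOLL: local smoothing of a bounded weakly taming closed form
-/

set_option autoImplicit false

open Set Filter Topology MeasureTheory
open scoped Manifold ContDiff

noncomputable section

namespace Pool.Agent.Y232.SY.MollSt

open Pool.Agent.Y501.SY

variable {d : ℕ}

/-- sets of capacity zero have measure zero -/
theorem vol_zero {k : Set (E d)} (h : Cap k) : volume k = 0 := by
  by_contra hne
  have hpos : 0 < volume k := pos_iff_ne_zero.2 hne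
  obtain ⟨δ, hδ, hδk⟩ : ∃ δ : ℝ, 0 < δ ∧ ENNReal.ofReal δ ≤ volume k := by
    by_cases htop : volume k = ⊤
    · exact ⟨1, one_pos, by rw [htop]; exact le_top⟩
    · refine ⟨(volume k).toReal, ENNReal.toReal_pos hne htop, ?_⟩
      rw [ENNReal.ofReal_toReal htop]
  obtain ⟨η, -, -, -, h1, -, -, hvol, -⟩ := h univ isOpen_univ (subset_univ _) δ hδ
  have hsub : k ⊆ Function.support η := by
    intro x hx
    have hx1 : η x = 1 := h1.self_of_nhdsSet x hx
    simp [Function.mem_support, hx1]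
  exact absurd (lt_of_le_of_lt (measure_mono hsub) hvol) (not_lt.2 hδk)

/-- mollifiers exist -/
theorem moll_exists {ε : ℝ} (hε : 0 < ε) : ∃ ρ : E d → ℝ, Moll ε ρ := by
  let f : ContDiffBump (0 : E d) := ⟨ε / 2, ε, by linarith, by linarith⟩
  refine ⟨f.normed volume, ⟨f.contDiff_normed, fun y => f.nonneg_normed y, ?_,
    f.integral_normed⟩⟩
  intro y hy
  have hs := f.support_normed_eq (μ := (volume : Measure (E d)))
  by_contra hne
  have hmem : y ∈ Function.support (f.normed volume) := hne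
  rw [hs, Metric.mem_ball, dist_zero_right] at hmem
  exact absurd hmem (not_lt.2 hy)

/-- neighbourhoods of compact sets -/
theorem nbr {C U : Set (E d)} (hC : IsCompact C) (hU : IsOpen U) (h : C ⊆ U) :
    ∃ (r : ℝ) (W : Set (E d)), 0 < r ∧ IsOpen W ∧ C ⊆ W ∧
      ∀ ε ≤ r, ∀ p ∈ W, Metric.closedBall p ε ⊆ U := by
  obtain ⟨δ, hδ, hsub⟩ := hC.exists_thickening_subset_open hU h
  refine ⟨δ / 2, Metric.thickening (δ / 2) C, by linarith, Metric.isOpen_thickening,
    Metric.self_subset_thickening (by linarith) C, ?_⟩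
  intro ε hε p hp q hq
  obtain ⟨z, hz, hpz⟩ := Metric.mem_thickening_iff.1 hp
  apply hsub
  rw [Metric.mem_thickening_iff]
  refine ⟨z, hz, ?_⟩
  have := dist_triangle q p z
  have h2 := Metric.mem_closedBall.1 hq
  linarith

/-- the norm of a two-form on a pair -/
theorem two_bound (η : (E d) [⋀^Fin 2]→L[ℝ] ℝ) (v w : E d) : |η ![v, w]| ≤ ‖η‖ * (‖v‖ * ‖w‖) := by
  have := η.le_opNorm ![v, w]
  simpa [Fin.prod_univ_two, Real.norm_eq_abs] using this

theorem wedge_bound (a : E d →L[ℝ] ℝ) (h : (E d) [⋀^Fin 1]→L[ℝ] ℝ) :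
    ‖ContinuousAlternatingMap.alternatizeUncurryFin (a.smulRight h)‖ ≤ 2 * (‖a‖ * ‖h‖) := by
  have h1 := ContinuousAlternatingMap.norm_alternatizeUncurryFin_le (a.smulRight h)
  rw [ContinuousLinearMap.norm_smulRight_apply] at h1
  have h2 : (((1 : ℕ) : ℝ) + 1) = 2 := by norm_num
  rw [h2] at h1
  exact h1

/-- linearity in the second variable -/
theorem two_sub (η : (E d) [⋀^Fin 2]→L[ℝ] ℝ) (v w w' : E d) :
    η ![v, w] = η ![v, w'] + η ![v, w - w'] := by
  have h := η.map_update_add ![v, 0] 1 w' (w - w')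
  have e : ∀ z : E d, Function.update (![v, 0] : Fin 2 → E d) 1 z = ![v, z] := by
    intro z
    ext i
    fin_cases i <;> simp
  rw [e, e, e] at h
  rw [← h]
  congr 2
  simp

/-- lower bound for the mollification -/
theorem mol_lb {V k : Set (E d)} {s : E d → (E d) [⋀^Fin 2]→L[ℝ] ℝ} {Js : E d → (E d →L[ℝ] E d)}
    {B δ₁ ε : ℝ} {ρ : E d → ℝ} (hB : 0 ≤ B) (hδ₁ : 0 ≤ δ₁) (hk : volume k = 0)
    (hsB : ∀ p ∈ V \ k, ‖s p‖ ≤ B) (hpos : ∀ p ∈ V \ k, ∀ v : E d, 0 ≤ s p ![v, Js p v])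
    (hρ : Moll ε ρ) (p : E d) (hball : Metric.closedBall p ε ⊆ V)
    (hJ : ∀ q ∈ Metric.closedBall p ε, ‖Js p - Js q‖ ≤ δ₁) (v : E d) :
    -(B * δ₁ * ‖v‖ ^ 2) ≤ mol ρ s p ![v, Js p v] := by
  unfold mol
  have hnn : 0 ≤ B * δ₁ * ‖v‖ ^ 2 := by positivity
  by_cases hint : Integrable (fun y => ρ y • s (p + y))
  · let L : ((E d) [⋀^Fin 2]→L[ℝ] ℝ) →L[ℝ] ℝ :=
      ContinuousAlternatingMap.apply ℝ (E d) ℝ ![v, Js p v]
    have hL : ∀ η : (E d) [⋀^Fin 2]→L[ℝ] ℝ, L η = η ![v, Js p v] := fun η => rfl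
    rw [← hL, ← L.integral_comp_comm hint]
    have hρint : Integrable ρ := by
      by_contra hni
      have := integral_undef hni
      rw [hρ.int] at this
      exact one_ne_zero this
    have hrhs : ∫ y, -(B * δ₁ * ‖v‖ ^ 2) * ρ y = -(B * δ₁ * ‖v‖ ^ 2) := by
      rw [integral_const_mul, hρ.int, mul_one]
    rw [← hrhs]
    apply integral_mono_ae (hρint.const_mul _) (L.integrable_comp hint)
    have hnull : ∀ᵐ y : E d, p + y ∉ k := by
      have h1 : volume ((fun y => p + y) ⁻¹' k) = 0 := by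
        rw [measure_preimage_add]
        exact hk
      exact measure_eq_zero_iff_ae_notMem.1 h1
    filter_upwards [hnull] with y hy
    rw [hL]
    by_cases hyε : ε ≤ ‖y‖
    · rw [hρ.supp y hyε]
      simp
    · have hmem : p + y ∈ Metric.closedBall p ε := by
        rw [Metric.mem_closedBall, dist_eq_norm, add_sub_cancel_left]
        exact le_of_not_ge hyε
      have hV : p + y ∈ V \ k := ⟨hball hmem, hy⟩
      have h1 := hpos (p + y) hV v
      have h2 := two_sub (s (p + y)) v (Js p v) (Js (p + y) v)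
      have h3 := two_bound (s (p + y)) v (Js p v - Js (p + y) v)
      have h4 : ‖Js p v - Js (p + y) v‖ ≤ δ₁ * ‖v‖ := by
        have := (Js p - Js (p + y)).le_opNorm v
        rw [_root_.sub_apply] at this
        exact this.trans (mul_le_mul_of_nonneg_right (hJ _ hmem) (norm_nonneg _))
      have h5 : ‖s (p + y)‖ * (‖v‖ * ‖Js p v - Js (p + y) v‖) ≤ B * δ₁ * ‖v‖ ^ 2 := by
        calc ‖s (p + y)‖ * (‖v‖ * ‖Js p v - Js (p + y) v‖)
            ≤ B * (‖v‖ * (δ₁ * ‖v‖)) := by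
              apply mul_le_mul (hsB _ hV) _ (by positivity) hB
              exact mul_le_mul_of_nonneg_left h4 (norm_nonneg _)
          _ = _ := by ring
      have h6 : -(B * δ₁ * ‖v‖ ^ 2) ≤ s (p + y) ![v, Js p v] := by
        rw [h2]
        have := (abs_le.1 (h3.trans h5)).1
        linarith
      have h7 : (ρ y • s (p + y)) ![v, Js p v] = ρ y * s (p + y) ![v, Js p v] := rfl
      rw [h7, mul_comm]
      exact mul_le_mul_of_nonneg_left h6 (hρ.nonneg y)
  · rw [integral_undef hint]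
    have : (0 : (E d) [⋀^Fin 2]→L[ℝ] ℝ) ![v, Js p v] = 0 := rfl
    rw [this]
    linarith

/-- the product rule -/
theorem ext_smul {n : ℕ} {χ : E d → ℝ} {om : E d → (E d) [⋀^Fin n]→L[ℝ] ℝ} {p : E d}
    (hχ : DifferentiableAt ℝ χ p) (hom : DifferentiableAt ℝ om p) :
    extDeriv (fun q => χ q • om q) p = χ p • extDeriv om p +
      ContinuousAlternatingMap.alternatizeUncurryFin ((fderiv ℝ χ p).smulRight (om p)) := by
  unfold extDeriv
  rw [fderiv_fun_smul hχ hom, ContinuousAlternatingMap.alternatizeUncurryFin_add,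
    ContinuousAlternatingMap.alternatizeUncurryFin_smul]

/-- the exterior derivative of a smooth form is smooth -/
theorem ext_smooth {n : ℕ} {om : E d → (E d) [⋀^Fin n]→L[ℝ] ℝ} {p : E d}
    (hom : ContDiffAt ℝ ∞ om p) : ContDiffAt ℝ ∞ (extDeriv om) p := by
  have h1 : ContDiffAt ℝ ∞ (fderiv ℝ om) p := hom.fderiv_right (by simp)
  exact (ContinuousAlternatingMap.alternatizeUncurryFinCLM ℝ (E d) ℝ).contDiff.contDiffAt.comp p h1

theorem alt_zero {n : ℕ} (h : (E d) [⋀^Fin n]→L[ℝ] ℝ) :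
    ContinuousAlternatingMap.alternatizeUncurryFin
      ((0 : E d →L[ℝ] ℝ).smulRight h) = 0 := by
  have h0 : (0 : E d →L[ℝ] ℝ).smulRight h = 0 := by
    ext1 v
    simp
  rw [h0]
  exact map_zero (ContinuousAlternatingMap.alternatizeUncurryFinCLM ℝ (E d) ℝ)

theorem alg1 (c : ℝ) (a b e : (E d) [⋀^Fin 2]→L[ℝ] ℝ) :
    (1 - c) • a + c • b + e = a + (c • (b - a) + e) := by
  apply ContinuousAlternatingMap.ext
  intro v
  change (1 - c) * a v + c * b v + e v = a v + (c * (b v - a v) + e v)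
  ring

theorem alg2 (c : ℝ) (a b : (E d) [⋀^Fin 2]→L[ℝ] ℝ) :
    (1 - c) • a + c • b = a + c • (b - a) := by
  apply ContinuousAlternatingMap.ext
  intro v
  change (1 - c) * a v + c * b v = a v + c * (b v - a v)
  ring

theorem smoothness_two : minSmoothness ℝ 2 ≤ (∞ : WithTop ℕ∞) := by
  rw [minSmoothness_of_isRCLikeNormedField]
  exact WithTop.coe_le_coe.2 (le_top : (2 : ℕ∞) ≤ ⊤)

theorem t_MOLL : S_MOLL := by
  intro hMC hHT d V k N s Js B δ hV hk hN hkN hNV hcap hs hcl hsB hJ hpos hδ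
  have hk0 : volume k = 0 := vol_zero hcap
  -- compact neighbourhoods
  obtain ⟨N', hN'c, hkN', hN'N⟩ := exists_compact_between hk hN hkN
  have hN'V : N' ⊆ V := hN'N.trans hNV
  have hkN'' : k ⊆ N' := hkN'.trans interior_subset
  obtain ⟨L, hLc, hN'L, hLV⟩ := exists_compact_between hN'c hV hN'V
  -- the cut-off function
  obtain ⟨χ0, hχ1, hχ0, hχr⟩ := exists_contMDiffMap_one_nhds_of_subset_interior
    (n := (⊤ : ℕ∞)) 𝓘(ℝ, E d) hk.isClosed hkN'
  have hχs' : ContDiff ℝ ∞ (χ0 : E d → ℝ) := χ0.contMDiff.contDiff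
  obtain ⟨χ, hχdef⟩ : ∃ χ : E d → ℝ, χ = (χ0 : E d → ℝ) := ⟨_, rfl⟩
  have hχs : ContDiff ℝ ∞ χ := hχdef ▸ hχs'
  replace hχ1 : ∀ᶠ x in 𝓝ˢ k, χ x = 1 := hχdef ▸ hχ1
  replace hχ0 : ∀ x, x ∉ N' → χ x = 0 := hχdef ▸ hχ0
  replace hχr : ∀ x, χ x ∈ Icc (0 : ℝ) 1 := hχdef ▸ hχr
  have hdχ : ContDiff ℝ ∞ (fderiv ℝ χ) := hχs.fderiv_right (by simp)
  have hχd : ∀ p, DifferentiableAt ℝ χ p := fun p => (hχs.differentiable (by simp)) p
  have hone : ∀ p ∈ k, ∀ᶠ q in 𝓝 p, χ q = 1 ∧ fderiv ℝ χ q = 0 := by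
    intro p hp
    have h1 : ∀ᶠ q in 𝓝 p, χ q = 1 := (eventually_nhdsSet_iff_forall.1 hχ1) p hp
    filter_upwards [h1, eventually_eventually_nhds.2 h1] with q hq1 hq2
    refine ⟨hq1, ?_⟩
    have h2 : χ =ᶠ[𝓝 q] fun _ => (1 : ℝ) := hq2
    rw [h2.fderiv_eq]
    simp
  have hoff : ∀ p, p ∉ N' → ∀ᶠ q in 𝓝 p, χ q = 0 ∧ fderiv ℝ χ q = 0 := by
    intro p hp
    have h1 : ∀ᶠ q in 𝓝 p, χ q = 0 := by
      filter_upwards [hN'c.isClosed.isOpen_compl.mem_nhds hp] with q hq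
      exact hχ0 q hq
    filter_upwards [h1, eventually_eventually_nhds.2 h1] with q hq1 hq2
    refine ⟨hq1, ?_⟩
    have h2 : χ =ᶠ[𝓝 q] fun _ => (0 : ℝ) := hq2
    rw [h2.fderiv_eq]
    simp
  have hTN' : tsupport (fderiv ℝ χ) ⊆ N' := by
    apply closure_minimal _ hN'c.isClosed
    intro p hp
    by_contra hpn
    exact hp (hoff p hpn).self_of_nhds.2
  have hTc : IsCompact (tsupport (fderiv ℝ χ)) :=
    hN'c.of_isClosed_subset (isClosed_tsupport _) hTN'
  have hTVk : tsupport (fderiv ℝ χ) ⊆ V \ k := by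
    intro p hp
    refine ⟨hN'V (hTN' hp), fun hpk => ?_⟩
    rw [← notMem_compl_iff] at hp
    apply hp
    have h1 : fderiv ℝ χ =ᶠ[𝓝 p] 0 := by
      filter_upwards [hone p hpk] with q hq
      exact hq.2
    exact notMem_tsupport_iff_eventuallyEq.2 h1
  have hVk : IsOpen (V \ k) := hV.sdiff hk.isClosed
  obtain ⟨r₁, W, hr₁, hWo, hN'W, hW⟩ := nbr hN'c isOpen_interior hN'L
  obtain ⟨r₂, O, hr₂, hOo, hTO, hO⟩ := nbr hTc hVk hTVk
  -- constants
  obtain ⟨B₀, hB₀, hBB₀⟩ : ∃ B₀ : ℝ, 0 ≤ B₀ ∧ B ≤ B₀ := ⟨max B 0, le_max_right _ _, le_max_left _ _⟩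
  have hsB₀ : ∀ p ∈ V \ k, ‖s p‖ ≤ B₀ := fun p hp => (hsB p hp).trans hBB₀
  obtain ⟨C₂, hC₂⟩ := hLc.exists_bound_of_continuousOn (hJ.mono hLV)
  obtain ⟨C₁, hC₁⟩ := hdχ.continuous.bounded_above_of_compact_support
    (f := fderiv ℝ χ) hTc
  obtain ⟨δ₁, hδ₁def⟩ : ∃ δ₁ : ℝ, δ₁ = δ / (2 * (B₀ + 1)) := ⟨_, rfl⟩
  have hδ₁ : 0 < δ₁ := by rw [hδ₁def]; positivity
  obtain ⟨r₃, hr₃, hr₃'⟩ := Metric.uniformContinuousOn_iff.1
    (hLc.uniformContinuousOn_of_continuous (hJ.mono hLV)) δ₁ hδ₁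
  obtain ⟨D₁, hD₁, hCD₁⟩ : ∃ D : ℝ, 0 ≤ D ∧ C₁ ≤ D := ⟨max C₁ 0, le_max_right _ _, le_max_left _ _⟩
  obtain ⟨D₂, hD₂, hCD₂⟩ : ∃ D : ℝ, 0 ≤ D ∧ C₂ ≤ D := ⟨max C₂ 0, le_max_right _ _, le_max_left _ _⟩
  obtain ⟨ε, hεdef⟩ : ∃ ε : ℝ, ε = min (min r₁ r₂) (min (r₃ / 2)
    (δ / (4 * (D₁ + 1) * (B₀ + 1) * (D₂ + 1)))) := ⟨_, rfl⟩
  have hε : 0 < ε := by
    rw [hεdef]
    refine lt_min (lt_min hr₁ hr₂) (lt_min (by linarith) (by positivity))
  have hε₁ : ε ≤ r₁ := by rw [hεdef]; exact (min_le_left _ _).trans (min_le_left _ _)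
  have hε₂ : ε ≤ r₂ := by rw [hεdef]; exact (min_le_left _ _).trans (min_le_right _ _)
  have hε₃ : ε ≤ r₃ / 2 := by rw [hεdef]; exact (min_le_right _ _).trans (min_le_left _ _)
  have hε₄ : ε ≤ δ / (4 * (D₁ + 1) * (B₀ + 1) * (D₂ + 1)) := by
    rw [hεdef]; exact (min_le_right _ _).trans (min_le_right _ _)
  obtain ⟨ρ, hρ⟩ := moll_exists (d := d) hε
  obtain ⟨hm1, hm2⟩ := hMC d V k s ε B ρ W hV hk (hkN.trans hNV) hcap hs hcl hsB hε hρ hWo
    (fun p hp => (hW ε hε₁ p hp).trans (interior_subset.trans hLV))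
  obtain ⟨ha1, ha2, ha3⟩ := hHT d (V \ k) O s ε B₀ ρ hVk hOo hs hcl hsB₀ hε hρ (hO ε hε₂)
  have hsm : ∀ p ∈ V \ k, ContDiffAt ℝ ∞ s p := fun p hp => hs.contDiffAt (hVk.mem_nhds hp)
  have hmm : ∀ p ∈ W, ContDiffAt ℝ ∞ (mol ρ s) p := fun p hp => hm1.contDiffAt (hWo.mem_nhds hp)
  have ham : ∀ p ∈ O, ContDiffAt ℝ ∞ (hA ρ s) p := fun p hp => ha1.contDiffAt (hOo.mem_nhds hp)
  have hdiff : ∀ {n : ℕ} {om : E d → (E d) [⋀^Fin n]→L[ℝ] ℝ} {p : E d}, ContDiffAt ℝ ∞ om p →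
    DifferentiableAt ℝ om p := fun h => h.differentiableAt (by simp)
  obtain ⟨s', hs'⟩ : ∃ s' : E d → (E d) [⋀^Fin 2]→L[ℝ] ℝ, s' = fun p => (1 - χ p) • s p +
    χ p • mol ρ s p + ContinuousAlternatingMap.alternatizeUncurryFin
      ((fderiv ℝ χ p).smulRight (hA ρ s p)) := ⟨_, rfl⟩
  have hs'a : ∀ p, s' p = (1 - χ p) • s p +
    χ p • mol ρ s p + ContinuousAlternatingMap.alternatizeUncurryFin
      ((fderiv ℝ χ p).smulRight (hA ρ s p)) := fun p => by rw [hs']
  have hkey : ∀ p ∈ V, ContDiffAt ℝ ∞ s' p ∧ extDeriv s' p = 0 := by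
    intro p hp
    by_cases hpk : p ∈ k
    · have he : s' =ᶠ[𝓝 p] mol ρ s := by
        filter_upwards [hone p hpk] with q hq
        rw [hs'a q, hq.1, hq.2, alt_zero]
        simp
      have hpW : p ∈ W := hN'W (hkN'' hpk)
      exact ⟨(hmm p hpW).congr_of_eventuallyEq he, by rw [he.extDeriv_eq]; exact hm2 p hpW⟩
    · have hpVk : p ∈ V \ k := ⟨hp, hpk⟩
      by_cases hpN : p ∈ N'
      · have hpW : p ∈ W := hN'W hpN
        by_cases hpT : p ∈ tsupport (fderiv ℝ χ)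
        · -- the main case
          have hpO : p ∈ O := hTO hpT
          have hg : ContDiffAt ℝ ∞ (fun x => χ x • hA ρ s x) p :=
            (hχs.contDiffAt).smul (ham p hpO)
          have he : s' =ᶠ[𝓝 p] (s + extDeriv (fun x => χ x • hA ρ s x)) := by
            filter_upwards [hOo.mem_nhds hpO] with q hq
            rw [hs'a q, Pi.add_apply, ext_smul (hχd q) (hdiff (ham q hq)), ha2 q hq]
            exact alg1 _ _ _ _
          refine ⟨((hsm p hpVk).add (ext_smooth hg)).congr_of_eventuallyEq he, ?_⟩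
          rw [he.extDeriv_eq, extDeriv_add (hdiff (hsm p hpVk)) (hdiff (ext_smooth hg)),
            hcl p hpVk, extDeriv_extDeriv_apply hg smoothness_two, add_zero]
        · have hdf : ContDiffAt ℝ ∞ (fun x => mol ρ s x - s x) p := (hmm p hpW).sub (hsm p hpVk)
          have hg : ContDiffAt ℝ ∞ (fun x => χ x • (mol ρ s x - s x)) p :=
            (hχs.contDiffAt).smul hdf
          have hT0 : ∀ᶠ q in 𝓝 p, fderiv ℝ χ q = 0 :=
            notMem_tsupport_iff_eventuallyEq.1 hpT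
          have he : s' =ᶠ[𝓝 p] (s + fun x => χ x • (mol ρ s x - s x)) := by
            filter_upwards [hT0] with q hq
            rw [hs'a q, hq, alt_zero, Pi.add_apply, add_zero]
            exact alg2 _ _ _
          refine ⟨((hsm p hpVk).add hg).congr_of_eventuallyEq he, ?_⟩
          have hz : extDeriv (fun x => mol ρ s x - s x) p = 0 := by
            have h1 : (fun x => mol ρ s x - s x) = mol ρ s + ((-1 : ℝ) • s) := by
              funext x
              apply ContinuousAlternatingMap.ext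
              intro v
              change mol ρ s x v - s x v = mol ρ s x v + (-1 : ℝ) * s x v
              ring
            rw [h1, extDeriv_add (hdiff (hmm p hpW)) ((hdiff (hsm p hpVk)).const_smul _),
              extDeriv_smul, hcl p hpVk, hm2 p hpW]
            simp
          rw [he.extDeriv_eq, extDeriv_add (hdiff (hsm p hpVk)) (hdiff hg),
            hcl p hpVk, ext_smul (hχd p) (hdiff hdf), hT0.self_of_nhds, alt_zero, hz]
          simp
      · have he : s' =ᶠ[𝓝 p] s := by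
          filter_upwards [hoff p hpN] with q hq
          rw [hs'a q, hq.1, hq.2, alt_zero]
          simp
        exact ⟨(hsm p hpVk).congr_of_eventuallyEq he, by rw [he.extDeriv_eq]; exact hcl p hpVk⟩
  have hsoff : ∀ p, p ∉ N' → s' p = s p := by
    intro p hp
    have hq := (hoff p hp).self_of_nhds
    rw [hs'a p, hq.1, hq.2, alt_zero]
    simp
  refine ⟨s', N', hN'c, hN'N, fun p hp => (hkey p hp).1.contDiffWithinAt,
    fun p hp => (hkey p hp).2, fun p hp => hsoff p hp.2, ?_⟩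
  intro p hp v
  by_cases hpN : p ∈ N'
  · have hpW : p ∈ W := hN'W hpN
    have hpL : p ∈ L := interior_subset (hN'L hpN)
    have h1 : 0 ≤ ((1 - χ p) • s p) ![v, Js p v] := by
      have e : ((1 - χ p) • s p) ![v, Js p v] = (1 - χ p) * s p ![v, Js p v] := rfl
      rw [e]
      by_cases hpk : p ∈ k
      · rw [(hone p hpk).self_of_nhds.1]
        simp
      · exact mul_nonneg (by linarith [(hχr p).2]) (hpos p ⟨hp, hpk⟩ v)
    have h2 : -(δ / 2 * ‖v‖ ^ 2) ≤ (χ p • mol ρ s p) ![v, Js p v] := by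
      have e : (χ p • mol ρ s p) ![v, Js p v] = χ p * mol ρ s p ![v, Js p v] := rfl
      rw [e]
      have hball : Metric.closedBall p ε ⊆ L := (hW ε hε₁ p hpW).trans interior_subset
      have h3 := mol_lb (V := V) (k := k) (s := s) (Js := Js) hB₀ hδ₁.le hk0 hsB₀ hpos hρ p
        (hball.trans hLV) (by
          intro q hq
          have hd : dist p q < r₃ := by
            rw [dist_comm]
            exact lt_of_le_of_lt (Metric.mem_closedBall.1 hq) (by linarith)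
          have := hr₃' p hpL q (hball hq) hd
          rw [dist_eq_norm] at this
          exact this.le) v
      have h4 : B₀ * δ₁ ≤ δ / 2 := by
        rw [hδ₁def]
        rw [mul_div_assoc', div_le_div_iff₀ (by positivity) (by positivity)]
        nlinarith
      have h5 : -(δ / 2 * ‖v‖ ^ 2) ≤ mol ρ s p ![v, Js p v] := by
        have : B₀ * δ₁ * ‖v‖ ^ 2 ≤ δ / 2 * ‖v‖ ^ 2 :=
          mul_le_mul_of_nonneg_right h4 (by positivity)
        linarith
      have h6 : 0 ≤ δ / 2 * ‖v‖ ^ 2 := by positivity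
      have h7 := (hχr p).1
      have h8 := (hχr p).2
      nlinarith
    have h3 : -(δ / 2 * ‖v‖ ^ 2) ≤ (ContinuousAlternatingMap.alternatizeUncurryFin
        ((fderiv ℝ χ p).smulRight (hA ρ s p))) ![v, Js p v] := by
      have h6 : 0 ≤ δ / 2 * ‖v‖ ^ 2 := by positivity
      by_cases hpT : p ∈ tsupport (fderiv ℝ χ)
      · have hpO : p ∈ O := hTO hpT
        have hb1 := two_bound (ContinuousAlternatingMap.alternatizeUncurryFin
          ((fderiv ℝ χ p).smulRight (hA ρ s p))) v (Js p v)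
        have hb2 := wedge_bound (fderiv ℝ χ p) (hA ρ s p)
        have hb3 : ‖fderiv ℝ χ p‖ ≤ D₁ := (hC₁ p).trans hCD₁
        have hb4 : ‖hA ρ s p‖ ≤ ε * B₀ := ha3 p hpO
        have hb5 : ‖Js p v‖ ≤ D₂ * ‖v‖ :=
          ((Js p).le_opNorm v).trans
            (mul_le_mul_of_nonneg_right ((hC₂ p hpL).trans hCD₂) (norm_nonneg _))
        have hb6 : ‖ContinuousAlternatingMap.alternatizeUncurryFin
          ((fderiv ℝ χ p).smulRight (hA ρ s p))‖ ≤ 2 * (D₁ * (ε * B₀)) := by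
          refine hb2.trans ?_
          have := mul_le_mul hb3 hb4 (norm_nonneg _) hD₁
          linarith
        have hb7 : |(ContinuousAlternatingMap.alternatizeUncurryFin
            ((fderiv ℝ χ p).smulRight (hA ρ s p))) ![v, Js p v]| ≤
            2 * (D₁ * (ε * B₀)) * (‖v‖ * (D₂ * ‖v‖)) :=
          hb1.trans (mul_le_mul hb6 (mul_le_mul_of_nonneg_left hb5 (norm_nonneg _))
            (by positivity) (by positivity))
        have hb8 : 2 * (D₁ * (ε * B₀)) * D₂ ≤ δ / 2 := by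
          have h9 : ε * (4 * (D₁ + 1) * (B₀ + 1) * (D₂ + 1)) ≤ δ := by
            rwa [le_div_iff₀ (by positivity)] at hε₄
          have h10 : D₁ * B₀ * D₂ ≤ (D₁ + 1) * (B₀ + 1) * (D₂ + 1) := by
            apply mul_le_mul (mul_le_mul _ _ hB₀ _) _ hD₂ _
            all_goals first | linarith | positivity
          have h11 : ε * (D₁ * B₀ * D₂) ≤ ε * ((D₁ + 1) * (B₀ + 1) * (D₂ + 1)) :=
            mul_le_mul_of_nonneg_left h10 hε.le
          nlinarith
        have hb9 : 2 * (D₁ * (ε * B₀)) * (‖v‖ * (D₂ * ‖v‖)) ≤ δ / 2 * ‖v‖ ^ 2 := by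
          have := mul_le_mul_of_nonneg_right hb8 (sq_nonneg ‖v‖)
          calc 2 * (D₁ * (ε * B₀)) * (‖v‖ * (D₂ * ‖v‖))
              = 2 * (D₁ * (ε * B₀)) * D₂ * ‖v‖ ^ 2 := by ring
            _ ≤ _ := this
        exact (abs_le.1 (hb7.trans hb9)).1
      · have h0 : fderiv ℝ χ p = 0 := (notMem_tsupport_iff_eventuallyEq.1 hpT).self_of_nhds
        rw [h0, alt_zero]
        have : (0 : (E d) [⋀^Fin 2]→L[ℝ] ℝ) ![v, Js p v] = 0 := rfl
        rw [this]
        linarith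
    have h4 : s' p ![v, Js p v] = ((1 - χ p) • s p) ![v, Js p v] +
        (χ p • mol ρ s p) ![v, Js p v] + (ContinuousAlternatingMap.alternatizeUncurryFin
        ((fderiv ℝ χ p).smulRight (hA ρ s p))) ![v, Js p v] := by
      rw [hs'a p]
      rfl
    rw [h4]
    linarith
  · rw [hsoff p hpN]
    have h1 := hpos p ⟨hp, fun h => hpN (hkN'' h)⟩ v
    have h2 : 0 ≤ δ * ‖v‖ ^ 2 := by positivity
    linarith

end Pool.Agent.Y232.SY.MollSt
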